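import Pool.Agent.TH71.PG.Bl

set_option autoImplicit false

/-!
# Determinants of matrices at small rank distance from small integer matrices
-/

namespace Pool.Agent.TH71.RD

open Pool.Agent.TH71.PG

/-- The determinant of a sum, by columns. -/
theorem det_add {m : ℕ} (Q P : Matrix (Fin m) (Fin m) ℝ) :
    (Q + P).det = ∑ S : Finset (Fin m), (Matrix.of fun i j => if j ∈ S then Q i j else P i j).det := by
  classical
  have h := MultilinearMap.map_add_univ
    (Matrix.detRowAlternating (n := Fin m) (R := ℝ)).toMultilinearMap (fun j i => Q i j)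
    (fun j i => P i j)
  have e1 : (Matrix.detRowAlternating (n := Fin m) (R := ℝ)).toMultilinearMap
      ((fun j i => Q i j) + fun j i => P i j) = (Q + P).det := by
    rw [← Matrix.det_transpose]
    rfl
  rw [e1] at h
  rw [h]
  refine Finset.sum_congr rfl fun S _ => ?_
  rw [← Matrix.det_transpose (Matrix.of fun i j => if j ∈ S then Q i j else P i j)]
  change Matrix.det _ = _
  congr 1
  ext j i
  simp only [Finset.piecewise, Matrix.transpose_apply, Matrix.of_apply]
  split_ifs <;> rfl

/-- If more columns than the rank of `Q` are taken from `Q`, then the determinant vanishes. -/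
theorem det_zero {m : ℕ} (Q P : Matrix (Fin m) (Fin m) ℝ) (S : Finset (Fin m))
    (h : Q.rank < S.card) : (Matrix.of fun i j => if j ∈ S then Q i j else P i j).det = 0 := by
  classical
  by_contra hne
  rw [← Matrix.det_transpose] at hne
  have hli := Matrix.linearIndependent_rows_of_det_ne_zero hne
  have h1 : LinearIndependent ℝ (fun j : S => (fun i => Q i j : Fin m → ℝ)) := by
    have h2 := hli.comp (fun j : S => (j : Fin m)) Subtype.val_injective
    have e : (fun j : S => (fun i => Q i j : Fin m → ℝ)) =
        (fun i => (Matrix.of fun i j => if j ∈ S then Q i j else P i j).transpose i) ∘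
          fun j : S => (j : Fin m) := by
      funext j i
      simp [Matrix.transpose]
    rw [e]
    exact h2
  have h3 : S.card ≤ Q.rank := by
    rw [Matrix.rank_eq_finrank_span_cols]
    have h4 : Submodule.span ℝ (Set.range fun j : S => (fun i => Q i j : Fin m → ℝ)) ≤
        Submodule.span ℝ (Set.range Q.col) := by
      apply Submodule.span_mono
      rintro _ ⟨j, rfl⟩
      exact ⟨j, rfl⟩
    have h5 := finrank_span_eq_card h1
    rw [Fintype.card_coe] at h5
    rw [← h5]
    exact Submodule.finrank_mono h4
  omega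

/-- **The main lemma.** -/
theorem det_small {m κ B : ℕ} (G : ℕ → Set ℝ) (h0 : (1 : ℝ) ∈ G 0)
    (hG : ∀ i j, ∀ a ∈ G i, ∀ b ∈ G j, a * b ∈ G (i + j)) (hmono : ∀ i j, i ≤ j → G i ⊆ G j)
    (X P : Matrix (Fin m) (Fin m) ℝ) (hX : ∀ i j, SF (G 1) (2 ^ B) (X i j))
    (hP : ∀ i j, ∃ z : ℤ, z.natAbs ≤ 2 ^ B ∧ P i j = z) (hr : (X - P).rank ≤ κ) :
    SF (G κ) (2 ^ (m + m * m + m * (B + 1))) X.det := by
  classical
  have hP0 : ∀ i j, SF (G 0) (2 ^ (B + 1)) (P i j) := by
    intro i j
    obtain ⟨z, hz1, hz2⟩ := hP i j
    have := (SF.of_mem h0).int z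
    rw [mul_one, mul_one] at this
    rw [hz2]
    exact this.mono (hz1.trans (Nat.pow_le_pow_right (by norm_num) (Nat.le_succ _)))
  have hQ : ∀ i j, SF (G 1) (2 ^ (B + 1)) ((X - P) i j) := by
    intro i j
    rw [Matrix.sub_apply, sub_eq_add_neg, pow_succ, mul_two]
    refine (hX i j).plus ?_
    obtain ⟨z, hz1, hz2⟩ := hP i j
    have := ((SF.of_mem (hmono 0 1 (Nat.zero_le _) h0)).int z).neg
    rw [mul_one, mul_one] at this
    rw [hz2]
    exact this.mono hz1
  have hsplit : X = (X - P) + P := by simp
  rw [hsplit, det_add]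
  have hS : ∀ S ∈ (Finset.univ : Finset (Finset (Fin m))), SF (G κ) (2 ^ (m * m + m * (B + 1)))
      (Matrix.of fun i j => if j ∈ S then (X - P) i j else P i j).det := by
    intro S _
    by_cases hS : S.card ≤ κ
    · rw [Matrix.det_apply]
      have hσ : ∀ σ ∈ (Finset.univ : Finset (Equiv.Perm (Fin m))),
          SF (G κ) (2 ^ (m * (B + 1))) (Equiv.Perm.sign σ •
            ∏ j, (Matrix.of fun i j => if j ∈ S then (X - P) i j else P i j) (σ j) j) := by
        intro σ _
        have h1 := SF.prod (Y := 2 ^ (B + 1)) G h0 hG Finset.univ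
          (fun j : Fin m => if j ∈ S then 1 else 0)
          (fun j => (Matrix.of fun i j => if j ∈ S then (X - P) i j else P i j) (σ j) j) (by
            intro j _
            rw [Matrix.of_apply]
            split_ifs with h
            · exact hQ _ _
            · exact hP0 _ _)
        rw [Finset.card_univ, Fintype.card_fin, ← pow_mul, mul_comm (B + 1)] at h1
        have h2 : ∑ j : Fin m, (if j ∈ S then 1 else 0) ≤ κ := by
          simpa using hS
        have h3 := h1.subset (hmono _ _ h2)
        rcases Int.units_eq_one_or (Equiv.Perm.sign σ) with h4 | h4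
        · rw [h4, one_smul]
          exact h3
        · rw [h4, Units.neg_smul, one_smul]
          exact h3.neg
      refine (SF.sum _ _ hσ).mono ?_
      rw [Finset.card_univ, Fintype.card_perm, Fintype.card_fin, pow_add]
      refine Nat.mul_le_mul_right _ ?_
      calc m.factorial ≤ m ^ m := Nat.factorial_le_pow m
        _ ≤ (2 ^ m) ^ m := Nat.pow_le_pow_left Nat.lt_two_pow_self.le m
        _ = 2 ^ (m * m) := by rw [pow_mul]
    · rw [det_zero _ _ _ (by omega)]
      exact SF.zero' _
  refine (SF.sum _ _ hS).mono ?_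
  rw [Finset.card_univ, Fintype.card_finset, Fintype.card_fin, ← pow_add]
  exact Nat.pow_le_pow_right (by norm_num) (by omega)

end Pool.Agent.TH71.RD
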