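import Pool.Agent.TH71.PG.Run
import Pool.Agent.TH71.RD.Det

set_option autoImplicit false

/-!
# Matrices at bounded rank distance from rational matrices with small entries
-/

namespace Pool.Agent.TH71.RD

open Pool.Agent.NPC Pool.Agent.H558R2 Pool.Agent.H622R3.SM Pool.Agent.W920.FC Pool.Agent.W920.FD
open Pool.Agent.TH71.PG

/-- The matrix `A` is the sum of a rational matrix whose entries have numerators and denominators
at most `2 ^ ((m + n) ^ k)`, and of a real matrix of rank at most `k`. -/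
def RankDist (k m n : ℕ) (A : Matrix (Fin m) (Fin n) ℝ) : Prop :=
  ∃ (M : Matrix (Fin m) (Fin n) ℚ) (L : Matrix (Fin m) (Fin n) ℝ), L.rank ≤ k ∧
    (∀ i j, |(M i j).num| ≤ 2 ^ ((m + n) ^ k) ∧ (M i j).den ≤ 2 ^ ((m + n) ^ k)) ∧
    ∀ i j, A i j = M i j + L i j

/-- The bound for the numbers in the expansion, as a power of two. -/
def bA (k s : ℕ) : ℕ := (s * s + 1) * s ^ k

/-- The norm of the minors, as forms of the products, as a power of two. -/
def hA (k s : ℕ) : ℕ := s + s * s + s * (bA k s + 1)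

/-- The computation. -/
def TA (k m n : ℕ) : TT Bool := TL m n (k + 1) (hA k (m + n)) (allL (bl m n) (k + 1))

/-- A common denominator. -/
theorem common_den {m n : ℕ} (B : ℕ) (M : Matrix (Fin m) (Fin n) ℚ)
    (hM : ∀ i j, |(M i j).num| ≤ 2 ^ B ∧ (M i j).den ≤ 2 ^ B) :
    ∃ q : ℕ, 1 ≤ q ∧ q ≤ 2 ^ (m * n * B) ∧
      ∀ i j, ∃ z : ℤ, z.natAbs ≤ 2 ^ (B + m * n * B) ∧ (q : ℝ) * ((M i j : ℚ) : ℝ) = z := by
  classical
  obtain ⟨q, hq⟩ : ∃ q : ℕ, q = ∏ p : Fin m × Fin n, (M p.1 p.2).den := ⟨_, rfl⟩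
  have hq1 : 1 ≤ q := by
    rw [hq]
    exact Nat.one_le_iff_ne_zero.2 (Finset.prod_ne_zero_iff.2 fun p _ => (M p.1 p.2).den_nz)
  have hq2 : q ≤ 2 ^ (m * n * B) := by
    rw [hq]
    calc ∏ p : Fin m × Fin n, (M p.1 p.2).den ≤ ∏ _p : Fin m × Fin n, 2 ^ B :=
          Finset.prod_le_prod (fun _ _ => Nat.zero_le _) fun p _ => (hM p.1 p.2).2
      _ = 2 ^ (m * n * B) := by
          rw [Finset.prod_const, Finset.card_univ, Fintype.card_prod, Fintype.card_fin,
            Fintype.card_fin, ← pow_mul, mul_comm B]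
  refine ⟨q, hq1, hq2, fun i j => ?_⟩
  have hdvd : (M i j).den ∣ q := by
    rw [hq]
    exact Finset.dvd_prod_of_mem (fun p : Fin m × Fin n => (M p.1 p.2).den)
      (Finset.mem_univ (i, j))
  obtain ⟨q', hq'⟩ := hdvd
  have hq'le : q' ≤ q := by
    rw [hq']
    exact Nat.le_mul_of_pos_left _ (M i j).den_pos
  refine ⟨(M i j).num * q', ?_, ?_⟩
  · rw [Int.natAbs_mul, Int.natAbs_natCast, pow_add]
    refine Nat.mul_le_mul ?_ (hq'le.trans hq2)
    have := (hM i j).1
    rw [Int.abs_eq_natAbs] at this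
    exact_mod_cast this
  · have h1 : ((M i j : ℚ) : ℝ) = ((M i j).num : ℝ) / ((M i j).den : ℝ) := by
      exact_mod_cast congrArg (fun x : ℚ => (x : ℝ)) (Rat.num_div_den (M i j)).symm
    have h2 : ((M i j).den : ℝ) ≠ 0 := by
      exact_mod_cast (M i j).den_nz
    rw [h1, hq']
    push_cast
    field_simp

theorem start_entry {m n : ℕ} (A : Matrix (Fin m) (Fin n) ℝ) (b : Fin m → ℝ) (i : Fin m)
    (j : Fin n) : start A b [0, i, j] = A i j := by
  show (if h : (i : ℕ) < m ∧ (j : ℕ) < n then A ⟨i, h.1⟩ ⟨j, h.2⟩ else 0) = _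
  rw [dif_pos ⟨i.2, j.2⟩]

theorem start_rhs {m n : ℕ} (A : Matrix (Fin m) (Fin n) ℝ) (b : Fin m → ℝ) (i : Fin m) :
    start A b [1, i] = b i := by
  show (if h : (i : ℕ) < m then b ⟨i, h⟩ else 0) = _
  rw [dif_pos i.2]

/-- The entries of the extended matrix are small. -/
theorem wmat_SF {m n : ℕ} (A : Matrix (Fin m) (Fin n) ℝ) (b : Fin m → ℝ) (i : Fin m)
    (o : Option (Fin (m + (n + n)))) : SF (PA (start A b) (bl m n) 1) 1 (wmat A b i o) := by
  rcases o with _ | t
  · have h := PA_reg (g := start A b) (rhs_mem_bl (m := m) (n := n) i.2)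
    rw [start_rhs] at h
    exact (SF.of_mem h).neg
  · obtain ⟨c, rfl⟩ := (colEquiv m n).surjective t
    have h0 : wmat A b i (some (colEquiv m n c)) = colEntry A i c := by
      simp [wmat]
    rw [h0]
    rcases c with r | c | c
    · simp only [colEntry]
      split_ifs
      · exact SF.of_mem (PA_one rfl (one_mem_bl m n) 1)
      · exact SF.zero' 1
    · simp only [colEntry]
      have h := PA_reg (g := start A b) (entry_mem_bl (m := m) (n := n) i.2 c.2)
      rw [start_entry] at h
      exact (SF.of_mem h).neg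
    · simp only [colEntry]
      have h := PA_reg (g := start A b) (entry_mem_bl (m := m) (n := n) i.2 c.2)
      rw [start_entry] at h
      exact SF.of_mem h

/-- The entries of the rational part. -/
theorem wmat_int {m n : ℕ} (q B : ℕ) (hq : q ≤ 2 ^ B) (M : Matrix (Fin m) (Fin n) ℝ)
    (hM : ∀ i j, ∃ z : ℤ, z.natAbs ≤ 2 ^ B ∧ (q : ℝ) * M i j = z) (i : Fin m)
    (o : Option (Fin (m + (n + n)))) :
    ∃ z : ℤ, z.natAbs ≤ 2 ^ B ∧ (q : ℝ) * wmat M (0 : Fin m → ℝ) i o = z := by
  rcases o with _ | t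
  · exact ⟨0, by simp, by simp [wmat]⟩
  · obtain ⟨c, rfl⟩ := (colEquiv m n).surjective t
    have h0 : wmat M (0 : Fin m → ℝ) i (some (colEquiv m n c)) = colEntry M i c := by
      simp [wmat]
    rw [h0]
    rcases c with r | c | c
    · simp only [colEntry]
      split_ifs
      · exact ⟨q, by simpa using hq, by simp⟩
      · exact ⟨0, by simp, by simp⟩
    · simp only [colEntry]
      obtain ⟨z, h1, h2⟩ := hM i c
      exact ⟨-z, by simpa using h1, by push_cast; rw [← h2]; ring⟩
    · simp only [colEntry]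
      exact hM i c

/-- The columns of the difference. -/
theorem wmat_diff {m n : ℕ} (A M L : Matrix (Fin m) (Fin n) ℝ) (b : Fin m → ℝ)
    (hA : ∀ i j, A i j = M i j + L i j) (o : Option (Fin (m + (n + n)))) :
    (fun i => wmat A b i o - wmat M (0 : Fin m → ℝ) i o) ∈
      Submodule.span ℝ (Set.range L.col) ⊔ Submodule.span ℝ {b} := by
  rcases o with _ | t
  · apply Submodule.mem_sup_right
    have : (fun i => wmat A b i none - wmat M (0 : Fin m → ℝ) i none) = (-1 : ℝ) • b := by
      funext i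
      simp [wmat]
    rw [this]
    exact Submodule.smul_mem _ _ (Submodule.mem_span_singleton_self b)
  · obtain ⟨c, rfl⟩ := (colEquiv m n).surjective t
    have h0 : ∀ (X : Matrix (Fin m) (Fin n) ℝ) (b : Fin m → ℝ) (i : Fin m),
        wmat X b i (some (colEquiv m n c)) = colEntry X i c := by
      intro X b i
      simp [wmat]
    simp only [h0]
    apply Submodule.mem_sup_left
    rcases c with r | c | c
    · have : (fun i => colEntry (fun i j => A i j) i (Sum.inl r : Col m n) -
          colEntry (fun i j => M i j) i (Sum.inl r : Col m n)) = 0 := by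
        funext i
        simp [colEntry]
      exact this ▸ Submodule.zero_mem _
    · have : (fun i => colEntry (fun i j => A i j) i (Sum.inr (Sum.inl c) : Col m n) -
          colEntry (fun i j => M i j) i (Sum.inr (Sum.inl c) : Col m n)) = (-1 : ℝ) • L.col c := by
        funext i
        simp only [colEntry, Pi.smul_apply, Matrix.col_apply, hA i c, smul_eq_mul]
        ring
      rw [show (fun i => colEntry A i (Sum.inr (Sum.inl c) : Col m n) -
        colEntry M i (Sum.inr (Sum.inl c) : Col m n)) = (-1 : ℝ) • L.col c from this]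
      exact Submodule.smul_mem _ _ (Submodule.subset_span ⟨c, rfl⟩)
    · have : (fun i => colEntry (fun i j => A i j) i (Sum.inr (Sum.inr c) : Col m n) -
          colEntry (fun i j => M i j) i (Sum.inr (Sum.inr c) : Col m n)) = L.col c := by
        funext i
        simp only [colEntry, Matrix.col_apply, hA i c]
        ring
      rw [show (fun i => colEntry A i (Sum.inr (Sum.inr c) : Col m n) -
        colEntry M i (Sum.inr (Sum.inr c) : Col m n)) = L.col c from this]
      exact Submodule.subset_span ⟨c, rfl⟩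

/-- The minors. -/
theorem minor (k m n : ℕ) (hm : 1 ≤ m) (A : Matrix (Fin m) (Fin n) ℝ) (b : Fin m → ℝ)
    (hA : RankDist k m n A) : ∃ c : ℝ, c ≠ 0 ∧ ∀ β : Fin m → Option (Fin (m + (n + n))),
      SF (PA (start A b) (bl m n) (k + 1)) (2 ^ RD.hA k (m + n)) (c * dd (wmat A b) β) := by
  classical
  obtain ⟨M, L, hL, hM, hAM⟩ := hA
  obtain ⟨q, hq1, hq2, hqM⟩ := common_den ((m + n) ^ k) M hM
  have hB : (m + n) ^ k + m * n * (m + n) ^ k ≤ bA k (m + n) := by
    unfold bA
    have : m * n ≤ (m + n) * (m + n) := Nat.mul_le_mul (by omega) (by omega)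
    nlinarith [Nat.zero_le ((m + n) ^ k)]
  have hqB : q ≤ 2 ^ bA k (m + n) := hq2.trans (Nat.pow_le_pow_right (by norm_num) (by omega))
  have hq0 : (q : ℝ) ≠ 0 := by
    exact_mod_cast (by omega : q ≠ 0)
  refine ⟨(q : ℝ) ^ m, pow_ne_zero _ hq0, fun β => ?_⟩
  have hdet := det_small (m := m) (κ := k + 1) (B := bA k (m + n))
    (PA (start A b) (bl m n)) (PA_one_mem _ _) (PA_mul _ _)
    (fun i j hij => PA_mono rfl (one_mem_bl m n) hij)
    (Matrix.of fun i j => (q : ℝ) * wmat A b i (β j))
    (Matrix.of fun i j => (q : ℝ) * wmat (fun i j => ((M i j : ℚ) : ℝ)) (0 : Fin m → ℝ) i (β j))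
    (by
      intro i j
      rw [Matrix.of_apply]
      have := (wmat_SF A b i (β j)).nat q
      rw [mul_one] at this
      exact this.mono hqB)
    (by
      intro i j
      rw [Matrix.of_apply]
      exact wmat_int q _ hqB _ (fun i j => by
        obtain ⟨z, h1, h2⟩ := hqM i j
        exact ⟨z, h1.trans (Nat.pow_le_pow_right (by norm_num) hB), h2⟩) i (β j))
    (by
      rw [Matrix.rank_eq_finrank_span_cols]
      have h1 : Submodule.span ℝ (Set.range (Matrix.col ((Matrix.of fun i j => (q : ℝ) *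
          wmat A b i (β j)) - Matrix.of fun i j => (q : ℝ) *
          wmat (fun i j => ((M i j : ℚ) : ℝ)) (0 : Fin m → ℝ) i (β j)))) ≤
          Submodule.span ℝ (Set.range L.col) ⊔ Submodule.span ℝ {b} := by
        rw [Submodule.span_le]
        rintro _ ⟨j, rfl⟩
        have h2 := wmat_diff A (fun i j => ((M i j : ℚ) : ℝ)) L b hAM (β j)
        have h3 := Submodule.smul_mem _ (q : ℝ) h2
        have h4 : Matrix.col ((Matrix.of fun i j => (q : ℝ) *
          wmat A b i (β j)) - Matrix.of fun i j => (q : ℝ) *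
          wmat (fun i j => ((M i j : ℚ) : ℝ)) (0 : Fin m → ℝ) i (β j)) j = (q : ℝ) •
            fun i => wmat A b i (β j) - wmat (fun i j => ((M i j : ℚ) : ℝ)) 0 i (β j) := by
          funext i
          simp only [Matrix.col_apply, Matrix.sub_apply, Matrix.of_apply, Pi.smul_apply,
            smul_eq_mul]
          ring
        rw [SetLike.mem_coe, h4]
        exact h3
      refine (Submodule.finrank_mono h1).trans ((Submodule.finrank_add_le_finrank_add_finrank
        _ _).trans (Nat.add_le_add ?_ ?_))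
      · rw [← Matrix.rank_eq_finrank_span_cols]
        exact hL
      · refine (finrank_span_le_card ({b} : Set (Fin m → ℝ))).trans ?_
        simp)
  have e : (Matrix.of fun i j => (q : ℝ) * wmat A b i (β j)).det = (q : ℝ) ^ m *
      dd (wmat A b) β := by
    have : (Matrix.of fun i j => (q : ℝ) * wmat A b i (β j)) =
        (q : ℝ) • (Matrix.of fun i j => wmat A b i (β j)) := by
      ext i j
      simp
    rw [this, Matrix.det_smul, Fintype.card_fin]
    rfl
  rw [e] at hdet
  refine hdet.mono (Nat.pow_le_pow_right (by norm_num) ?_)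
  unfold RD.hA
  have h1 : m ≤ m + n := Nat.le_add_right _ _
  exact add_le_add (add_le_add h1 (Nat.mul_le_mul h1 h1)) (Nat.mul_le_mul_right _ h1)

/-- The control is polynomial. -/
theorem ctrl (k : ℕ) : PT (fun p : List Unit × List Unit => TA k p.1.length p.2.length) := by
  have h1 : Poly (fun p : List Unit × List Unit => p.1) := Poly.fst Poly.id
  have h2 : Poly (fun p : List Unit × List Unit => p.2) := Poly.snd Poly.id
  have hs : UPoly (fun p : List Unit × List Unit => p.1.length + p.2.length) :=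
    UPoly.add (UPoly.length h1) (UPoly.length h2)
  have hB : UPoly (fun p : List Unit × List Unit => bA k (p.1.length + p.2.length)) :=
    UPoly.mul (UPoly.add (UPoly.mul hs hs) (UPoly.const 1)) (TQV.uPow hs k)
  have hh : UPoly (fun p : List Unit × List Unit => hA k (p.1.length + p.2.length)) :=
    UPoly.add (UPoly.add hs (UPoly.mul hs hs)) (UPoly.mul hs (UPoly.add hB (UPoly.const 1)))
  exact ptTL h1 h2 (UPoly.const (k + 1)) hh (pAllL (pBl h1 h2) (k + 1))

/-- **The main theorem.** -/
theorem main (k : ℕ) : PolyControl (algOf (TA k)) ∧ OracleFree (algOf (TA k)) ∧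
    StronglyPolynomialOn (fun m n A _ => RankDist k m n A) (algOf (TA k)) := by
  refine assemble _ (TA k) (ctrl k) ?_
  obtain ⟨q1, hq1⟩ : ∃ q : Polynomial ℕ, ∀ m n : ℕ, hA k (m + n) ≤ q.eval (m + n) := by
    have hs := TPB.pb_s
    obtain ⟨q, hq⟩ := TPB.pb_add (TPB.pb_add hs (TPB.pb_mul hs hs)) (TPB.pb_mul hs (TPB.pb_add
      (TPB.pb_mul (TPB.pb_add (TPB.pb_mul hs hs) (TPB.pb_const 1)) (TPB.pb_pow hs k))
      (TPB.pb_const 1)))
    exact ⟨q, hq⟩
  set pB : Polynomial ℕ := Polynomial.C (k + 1) + (q1 +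
    (1 + (Polynomial.X * Polynomial.X + Polynomial.X)) ^ (k + 1)) with hpB
  obtain ⟨q, hq⟩ := runTL' pB
  refine ⟨q, ?_⟩
  intro m n hm hn A b hA
  have ev : pB.eval (m + n) = (k + 1) + (q1.eval (m + n) +
      (1 + ((m + n) * (m + n) + (m + n))) ^ (k + 1)) := by
    simp [hpB]
  have hlen : (allL (bl m n) (k + 1)).length ≤ (1 + ((m + n) * (m + n) + (m + n))) ^ (k + 1) := by
    rw [length_allL, length_bl]
    refine Nat.pow_le_pow_left ?_ _
    have : m * n ≤ (m + n) * (m + n) := Nat.mul_le_mul (by omega) (by omega)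
    omega
  have hlen1 : 1 ≤ (allL (bl m n) (k + 1)).length := by
    rw [length_allL, length_bl]
    exact Nat.one_le_pow _ _ (by omega)
  refine hq m n (k + 1) (RD.hA k (m + n)) A b (allL (bl m n) (k + 1)) (by rw [ev]; omega)
    ((hq1 m n).trans (by rw [ev]; omega)) (by rw [ev]; omega) hlen1
    (allL_ok _ (bl_base m n) _) ?_ ?_
  · obtain ⟨t, ht⟩ := getD_allL_zero [2] ((poss m n).map (fun p => [0, p.1, p.2]) ++
      (List.range m).map fun i => [1, i]) (k + 1)
    have hbl : bl m n = [2] :: ((poss m n).map (fun p => [0, p.1, p.2]) ++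
      (List.range m).map fun i => [1, i]) := rfl
    unfold wl
    rw [hbl, ht, List.getD_cons_zero, pv_eq rfl _ _ (by simp)]
    rw [List.map_replicate, List.prod_replicate]
    have : start A b [2] = 1 := rfl
    rw [this, one_pow]
  · obtain ⟨c, hc, hmin⟩ := minor k m n hm A b hA
    refine ratioSmall_of_min _ _ m n A b _ c hc ?_
    intro β _
    exact SF.vec (PA_vec rfl (bl m n) (k + 1)) (hmin β)

end Pool.Agent.TH71.RD
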